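import Mathlib
import Pool.Agent.H774R4.Fin

/-!
Under CH there is a Tychonoff space `X` such that `C_p(X)` is hereditarily Lindelof, hence perfectly
normal, while `C_p(X) × C_p(X)` is not perfectly normal.
-/

set_option autoImplicit false

open Set Topology Cardinal

namespace Pool.Agent.Results.MP_181197_gt.CounterexampleCH

/-- Assume CH. There is a Tychonoff space `X` such that, for the topology of pointwise convergence,
`C_p(X)` is hereditarily Lindelof, normal, and all its closed subsets are `G_δ`, but the square
`C_p(X) × C_p(X)` is not perfectly normal; moreover this square contains an uncountable discrete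
subspace, so that neither the spread nor the hereditary Lindelof number of `C_p(X)` is finitely
multiplicative. -/
theorem result (hCH : (𝔠 : Cardinal.{0}) = ℵ₁) :
    ∃ (X : Type) (_ : TopologicalSpace X), T35Space X ∧
      HereditarilyLindelofSpace {f : X → ℝ // Continuous f} ∧
      (NormalSpace {f : X → ℝ // Continuous f} ∧
        ∀ s : Set {f : X → ℝ // Continuous f}, IsClosed s → IsGδ s) ∧
      ¬ (NormalSpace ({f : X → ℝ // Continuous f} × {f : X → ℝ // Continuous f}) ∧
        ∀ s : Set ({f : X → ℝ // Continuous f} × {f : X → ℝ // Continuous f}),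
          IsClosed s → IsGδ s) ∧
      ∃ D : Set ({f : X → ℝ // Continuous f} × {f : X → ℝ // Continuous f}),
        ¬ D.Countable ∧ DiscreteTopology D := by
  obtain ⟨X, t, h1, h2, h3, h4⟩ := Pool.Agent.H774R4.main hCH
  exact ⟨X, t, h1, h2.1, h2.2, h3, h4⟩

end Pool.Agent.Results.MP_181197_gt.CounterexampleCH
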