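import Mathlib
import Pool.Agent.H151.PN4

/-!
Perfect normality of the square of `C_p(X)`.
-/

set_option autoImplicit false

open Set Topology

namespace Pool.Agent.Results.MP_181197_gt.SquareZeroDim

open Pool.Agent.H151.PN
open Pool.Agent.Helper937.Szd (CS Cp)

/-- perfectly normal: normal, and closed sets are `G_δ` -/
def PerfNormal (E : Type) [TopologicalSpace E] : Prop :=
  NormalSpace E ∧ ∀ s : Set E, IsClosed s → IsGδ s

/-- Let `X` be a Tychonoff space.

(1) The following are equivalent: all finite powers of `C_p(X)` are perfectly normal; the countable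
power of `C_p(X)` is perfectly normal; all closed subspaces of all finite powers of `X` are
separable.

(2) If `X` has a base of clopen sets, or if `X` has a continuous injection into `ℝ ^ ℕ` (a coarser
separable metrizable topology), and `C_p(X)` is perfectly normal, then `C_p(X) × C_p(X)` and all
countable powers of `C_p(X)` are perfectly normal.

(3) If `X` itself is a function space `C_p(T)` (`T` any topological space) and `C_p(X)` is perfectly
normal, then `C_p(X) × C_p(X)` and all countable powers of `C_p(X)` are perfectly normal. -/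
theorem result :
    (∀ (X : Type) [TopologicalSpace X] [T35Space X],
      ((∀ k : ℕ, PerfNormal (Fin k → {f : X → ℝ // Continuous f})) ↔
        PerfNormal (ℕ → {f : X → ℝ // Continuous f})) ∧
      (PerfNormal (ℕ → {f : X → ℝ // Continuous f}) ↔
        ∀ (n : ℕ) (S : Set (Fin n → X)), IsClosed S → TopologicalSpace.SeparableSpace S)) ∧
    (∀ (X : Type) [TopologicalSpace X] [T35Space X],
      (TopologicalSpace.IsTopologicalBasis {s : Set X | IsClopen s} ∨
        ∃ j : X → ℕ → ℝ, Continuous j ∧ Function.Injective j) →
      PerfNormal {f : X → ℝ // Continuous f} →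
      PerfNormal ({f : X → ℝ // Continuous f} × {f : X → ℝ // Continuous f}) ∧
        PerfNormal (ℕ → {f : X → ℝ // Continuous f})) ∧
    (∀ (T : Type) [TopologicalSpace T],
      PerfNormal {g : {f : T → ℝ // Continuous f} → ℝ // Continuous g} →
      PerfNormal ({g : {f : T → ℝ // Continuous f} → ℝ // Continuous g} ×
          {g : {f : T → ℝ // Continuous f} → ℝ // Continuous g}) ∧
        PerfNormal (ℕ → {g : {f : T → ℝ // Continuous f} → ℝ // Continuous g})) := by
  have hsq : ∀ (X : Type) [TopologicalSpace X], (∀ n, CS (Fin n → X)) →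
      PN (Cp X × Cp X) ∧ PN (ℕ → Cp X) ∧ ∀ k : ℕ, PN (Fin k → Cp X) := by
    intro X _ h
    refine ⟨?_, pn_of_cs ℕ h id IsInducing.id, fun k => pn_of_cs (Fin k) h id IsInducing.id⟩
    refine pn_of_cs Bool h (fun z b => if b then z.1 else z.2) ?_
    refine IsInducing.of_comp (f := fun (z : Cp X × Cp X) (b : Bool) => if b then z.1 else z.2)
      (g := fun (u : Bool → Cp X) => (u true, u false)) ?_ ?_ ?_
    · refine continuous_pi fun b => ?_
      cases b
      · exact continuous_snd
      · exact continuous_fst
    · exact (continuous_apply true).prodMk (continuous_apply false)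
    · exact IsInducing.id
  refine ⟨fun X _ _ => ⟨⟨fun h => ?_, fun h k => ?_⟩, ⟨fun h n => ?_, fun h => ?_⟩⟩, ?_, ?_⟩
  · exact (hsq X fun n => cs_of_power (h n)).2.1
  · have h2 : ∀ n, CS (Fin n → X) := fun n => by
      refine cs_of_power (k := n) (PN.of_embedding h
        (fun (u : Fin n → Cp X) (m : ℕ) => if hm : m < n then u ⟨m, hm⟩ else ⟨fun _ => 0, continuous_const⟩) ?_)
      refine IsInducing.of_comp ?_ (g := fun (u : ℕ → Cp X) (i : Fin n) => u i) ?_ ?_
      · refine continuous_pi fun m => ?_
        by_cases hm : m < n
        · simp only [hm, dite_true]; exact continuous_apply _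
        · simp only [hm, dite_false]; exact continuous_const
      · exact continuous_pi fun i => continuous_apply _
      · have : ((fun (u : ℕ → Cp X) (i : Fin n) => u i) ∘ fun (u : Fin n → Cp X) (m : ℕ) =>
            if hm : m < n then u ⟨m, hm⟩ else ⟨fun _ => 0, continuous_const⟩) = id := by
          funext u i
          simp
        rw [this]; exact IsInducing.id
    exact (hsq X h2).2.2 k
  · refine cs_of_power (k := n) (PN.of_embedding h
        (fun (u : Fin n → Cp X) (m : ℕ) => if hm : m < n then u ⟨m, hm⟩ else ⟨fun _ => 0, continuous_const⟩) ?_)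
    refine IsInducing.of_comp ?_ (g := fun (u : ℕ → Cp X) (i : Fin n) => u i) ?_ ?_
    · refine continuous_pi fun m => ?_
      by_cases hm : m < n
      · simp only [hm, dite_true]; exact continuous_apply _
      · simp only [hm, dite_false]; exact continuous_const
    · exact continuous_pi fun i => continuous_apply _
    · have : ((fun (u : ℕ → Cp X) (i : Fin n) => u i) ∘ fun (u : Fin n → Cp X) (m : ℕ) =>
          if hm : m < n then u ⟨m, hm⟩ else ⟨fun _ => 0, continuous_const⟩) = id := by
        funext u i
        simp
      rw [this]; exact IsInducing.id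
  · exact (hsq X h).2.1
  · intro X _ _ hX hpn
    have h1 : Inj X := by
      rcases hX with hz | ⟨j, hj, hji⟩
      · exact inj_of_zerodim hpn hz
      · exact inj_of_condensation hpn j hj hji
    have h2 := hsq X (cs_of_inj h1)
    exact ⟨h2.1, h2.2.1⟩
  · intro T _ hpn
    have h2 := hsq (Cp T) (cs_cp_of_pn hpn)
    exact ⟨h2.1, h2.2.1⟩

end Pool.Agent.Results.MP_181197_gt.SquareZeroDim
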